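import Mathlib
import Pool.Graph.R_pool_sql_team_seeded_3997aac3.Q102.BridgedMain

set_option autoImplicit false

open SimpleGraph

namespace Pool.Agent.Results.MP_1b70d9_co.RootedIsometric

open Pool.Agent.Q102.Bridged

universe u

variable {V : Type u}

/-- Every cycle of length at least `4` has two vertices closer in `H` than along the cycle. -/
def IsBridged {W : Type u} (H : SimpleGraph W) : Prop :=
  ∀ (u : W) (c : H.Walk u u), c.IsCycle → 4 ≤ c.length →
    ∃ i j : ℕ, i ≤ j ∧ j < c.length ∧
      H.dist (c.getVert i) (c.getVert j) < min (j - i) (c.length - (j - i))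

theorem le_iff {G : SimpleGraph V} (hc : G.Connected) (r x : V) (n : ℕ) :
    Le G r x n ↔ G.dist r x ≤ n := by
  constructor
  · rintro ⟨p, hp⟩
    exact (dist_le p).trans hp
  · intro h
    obtain ⟨p, hp⟩ := hc.exists_walk_length_eq_dist r x
    exact ⟨p, hp.le.trans h⟩

theorem isLevel_dist {G : SimpleGraph V} (hG : NoIso G) (hc : G.Connected) (r : V) :
    IsLevel G (G.dist r) := by
  have hle := le_iff hc r
  have hAB := PAB hG
  refine ⟨?_, ?_, ?_, ?_, ?_⟩
  · intro x y hxy
    rw [← hle]
    exact ((hle y _).mpr le_rfl).succ_adj hxy.symm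
  · intro x y hxy hx hy
    have h1 := ((hle x 0).mpr hx.le).eq_of_zero
    have h2 := ((hle y 0).mpr hy.le).eq_of_zero
    exact hxy.ne (h1.symm.trans h2)
  · intro x hx
    obtain ⟨n, hn⟩ : ∃ n, G.dist r x = n + 1 := ⟨G.dist r x - 1, by omega⟩
    have h1 := (hle x (n + 1)).mpr hn.le
    rcases h1.pred with h2 | ⟨p, hp, hpx⟩
    · rw [hle] at h2
      omega
    · refine ⟨p, hpx.symm, ?_⟩
      rw [hle] at hp
      have h3 : G.dist r x ≤ G.dist r p + 1 := by
        rw [← hle]
        exact ((hle p _).mpr le_rfl).succ_adj hpx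
      omega
  · intro x p q hxp hxq hp hq hpq
    refine (hAB (G.dist r p)).1 r x p q ?_ hxp hxq ?_ ?_ hpq
    · rw [hle]
      omega
    · rw [hle]
    · rw [hle]
      omega
  · intro x y hxy he hx
    obtain ⟨n, hn⟩ : ∃ n, G.dist r x = n + 1 := ⟨G.dist r x - 1, by omega⟩
    obtain ⟨w, h1, h2, h3⟩ := (hAB n).2 r x y hxy (by rw [hle]; omega)
      (by rw [hle]; omega) (by rw [hle]; omega) (by rw [hle]; omega)
    refine ⟨w, h1, h2, ?_⟩
    rw [hle] at h3
    have h4 : G.dist r x ≤ G.dist r w + 1 := by
      rw [← hle]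
      exact ((hle w _).mpr le_rfl).succ_adj h1.symm
    omega

theorem exists_closed_aux' [DecidableEq V] {G : SimpleGraph V} {lev : V → ℕ} {P : V → V}
    {Q : V → V → V} (M : ℕ)
    (hP : ∀ x, 0 < lev x → lev (P x) + 1 = lev x)
    (hQ : ∀ x y, G.Adj x y → lev x = lev y → 0 < lev x → lev (Q x y) + 1 = lev x) :
    ∀ (k : ℕ), k ≤ M → ∀ (F : Finset V), (∀ x ∈ F, lev x ≤ M) → (∀ x ∈ F, k < lev x → P x ∈ F ∧
      ∀ y ∈ F, G.Adj x y → lev x = lev y → Q x y ∈ F) →
      ∃ F' : Finset V, F ⊆ F' ∧ (∀ x ∈ F', lev x ≤ M) ∧ ∀ x ∈ F', 0 < lev x → P x ∈ F' ∧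
        ∀ y ∈ F', G.Adj x y → lev x = lev y → Q x y ∈ F' := by
  classical
  intro k
  induction k with
  | zero => exact fun _ F hM h => ⟨F, Finset.Subset.refl _, hM, h⟩
  | succ k ih =>
    intro hkM F hM hF
    let A : Finset V := (F.filter fun x => lev x = k + 1).image P
    let B : Finset V := ((F ×ˢ F).filter fun p => lev p.1 = k + 1 ∧ lev p.2 = k + 1 ∧
      G.Adj p.1 p.2).image fun p => Q p.1 p.2
    have hA : ∀ x ∈ A, lev x = k := by
      intro x hx
      obtain ⟨y, hy, rfl⟩ := Finset.mem_image.mp hx
      have h1 := (Finset.mem_filter.mp hy).2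
      have := hP y (by omega)
      omega
    have hB : ∀ x ∈ B, lev x = k := by
      intro x hx
      obtain ⟨⟨y, z⟩, hy, rfl⟩ := Finset.mem_image.mp hx
      have h1 := (Finset.mem_filter.mp hy).2
      simp only at h1
      have := hQ y z h1.2.2 (h1.1.trans h1.2.1.symm) (by omega)
      simp only
      omega
    have hlev : ∀ x ∈ F ∪ (A ∪ B), k < lev x → x ∈ F := by
      intro x hx hk
      rcases Finset.mem_union.mp hx with h | h
      · exact h
      · rcases Finset.mem_union.mp h with h | h
        · have := hA x h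
          omega
        · have := hB x h
          omega
    obtain ⟨F', hF', hM', hF''⟩ := ih (by omega) (F ∪ (A ∪ B)) (by
      intro x hx
      rcases Finset.mem_union.mp hx with h | h
      · exact hM x h
      · rcases Finset.mem_union.mp h with h | h
        · have := hA x h
          omega
        · have := hB x h
          omega) (by
      intro x hx hk
      have hxF := hlev x hx hk
      by_cases hk1 : lev x = k + 1
      · refine ⟨Finset.mem_union_right _ (Finset.mem_union_left _
          (Finset.mem_image_of_mem _ (Finset.mem_filter.mpr ⟨hxF, hk1⟩))), ?_⟩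
        intro y hy hxy he
        have hyF := hlev y hy (by omega)
        refine Finset.mem_union_right _ (Finset.mem_union_right _
          (Finset.mem_image.mpr ⟨(x, y), ?_, rfl⟩))
        rw [Finset.mem_filter]
        exact ⟨Finset.mem_product.mpr ⟨hxF, hyF⟩, hk1, by simp only; omega, hxy⟩
      · obtain ⟨h1, h2⟩ := hF x hxF (by omega)
        refine ⟨Finset.mem_union_left _ h1, ?_⟩
        intro y hy hxy he
        exact Finset.mem_union_left _ (h2 y (hlev y hy (by omega)) hxy he))
    exact ⟨F', Finset.Subset.trans Finset.subset_union_left hF', hM', hF''⟩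

/-- The finite set, with the extra information about distances from `r`. -/
theorem exists_rooted [DecidableEq V] {G : SimpleGraph V} (hG : NoIso G) (hc : G.Connected)
    (r : V) (S : Finset V) :
    ∃ F : Finset V, r ∈ F ∧ S ⊆ F ∧ NoIso (rs G (F : Set V)) ∧
      (∀ x ∈ F, ∃ s ∈ insert r S, G.dist r x ≤ G.dist r s) ∧
      ∀ x ∈ F, 0 < G.dist r x → ∃ p ∈ F, G.Adj x p ∧ G.dist r p + 1 = G.dist r x := by
  classical
  obtain ⟨lev, hlevd⟩ : ∃ lev : V → ℕ, lev = G.dist r := ⟨_, rfl⟩
  have hlev : IsLevel G lev := hlevd ▸ isLevel_dist hG hc r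
  rw [← hlevd]
  have hP : ∀ x, ∃ p, 0 < lev x → G.Adj x p ∧ lev p + 1 = lev x := by
    intro x
    by_cases h : 0 < lev x
    · obtain ⟨p, hp⟩ := hlev.down x h
      exact ⟨p, fun _ => hp⟩
    · exact ⟨x, fun h' => absurd h' h⟩
  choose P hP using hP
  have hQ : ∀ x y, ∃ w, G.Adj x y → lev x = lev y → 0 < lev x →
      G.Adj x w ∧ G.Adj y w ∧ lev w + 1 = lev x := by
    intro x y
    by_cases h : G.Adj x y ∧ lev x = lev y ∧ 0 < lev x
    · obtain ⟨w, hw⟩ := hlev.common x y h.1 h.2.1 h.2.2
      exact ⟨w, fun _ _ _ => hw⟩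
    · exact ⟨x, fun h1 h2 h3 => absurd ⟨h1, h2, h3⟩ h⟩
  choose Q hQ using hQ
  obtain ⟨F, hSF, hM, hF⟩ := exists_closed_aux' (G := G) (lev := lev) (P := P) (Q := Q)
    ((insert r S).sup lev)
    (fun x h => (hP x h).2) (fun x y h1 h2 h3 => (hQ x y h1 h2 h3).2.2) _ le_rfl (insert r S)
    (fun x hx => Finset.le_sup hx) (fun x hx h => absurd (Finset.le_sup (f := lev) hx) (not_le.2 h))
  refine ⟨F, hSF (Finset.mem_insert_self _ _), (Finset.subset_insert _ _).trans hSF, ?_, ?_, ?_⟩
  · have key : ∀ (n : ℕ) (B : Finset V), B.card = n → B ⊆ F →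
        (∀ x ∈ B, ∀ w ∈ F, lev w < lev x → w ∈ B) → NoIso (rs G (B : Set V)) := by
      intro n
      induction n with
      | zero =>
        intro B hB _ _ N c _ _ hc _
        have := (hc 0).2.1
        rw [Finset.card_eq_zero.mp hB] at this
        simp at this
      | succ n ih =>
        intro B hB hBF hinit
        have hne : B.Nonempty := by
          rw [← Finset.card_pos]
          omega
        obtain ⟨y, hyB, hmax⟩ := Finset.exists_max_image B lev hne
        have hB' : NoIso (rs G ((B.erase y : Finset V) : Set V)) := by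
          apply ih
          · rw [Finset.card_erase_of_mem hyB, hB]
            rfl
          · exact (Finset.erase_subset _ _).trans hBF
          · intro x hx w hw hlt
            have hxB := Finset.mem_of_mem_erase hx
            rw [Finset.mem_erase]
            refine ⟨?_, hinit x hxB w hw hlt⟩
            rintro rfl
            have := hmax x hxB
            omega
        have hadd := add_vertex (y := y) hG.c4free hG.c5free hB' (by simp) ?_
        · have : insert y ((B.erase y : Finset V) : Set V) = (B : Set V) := by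
            rw [← Finset.coe_insert, Finset.insert_erase hyB]
          rwa [this] at hadd
        · intro a ha b hb hya hyb
          rw [Finset.mem_coe] at ha hb
          have haB := Finset.mem_of_mem_erase ha
          have hbB := Finset.mem_of_mem_erase hb
          have hpos : 0 < lev y := by
            rcases Nat.eq_zero_or_pos (lev y) with h | h
            · have h1 := hlev.zero y a hya h
              have h2 := hmax a haB
              omega
            · exact h
          have comp : ∀ a ∈ B, G.Adj y a → ∃ q ∈ B.erase y, G.Adj y q ∧ (a = q ∨ G.Adj a q) ∧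
              lev q + 1 = lev y := by
            intro a haB hya
            have h1 := hmax a haB
            have h2 := hlev.adj y a hya
            by_cases h3 : lev a = lev y
            · obtain ⟨h4, h5, h6⟩ := hQ y a hya h3.symm hpos
              have h7 : Q y a ∈ F := (hF y (hBF hyB) hpos).2 a (hBF haB) hya h3.symm
              have h8 : Q y a ∈ B := hinit y hyB _ h7 (by omega)
              refine ⟨Q y a, Finset.mem_erase.mpr ⟨h4.ne', h8⟩, h4, Or.inr h5, h6⟩
            · exact ⟨a, Finset.mem_erase.mpr ⟨hya.ne', haB⟩, hya, Or.inl rfl, by omega⟩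
          obtain ⟨q1, hq1, h1, h2, h3⟩ := comp a haB hya
          obtain ⟨q2, hq2, h4, h5, h6⟩ := comp b hbB hyb
          refine ⟨q1, Finset.mem_coe.mpr hq1, q2, Finset.mem_coe.mpr hq2, h1, h4, h2, ?_,
            h5.imp Eq.symm fun h => h.symm⟩
          by_cases h : q1 = q2
          · exact Or.inl h
          · exact Or.inr (hlev.clique y q1 q2 h1 h4 h3 h6 h)
    exact key F.card F rfl (Finset.Subset.refl _) fun x _ w hw _ => hw
  · intro x hx
    obtain ⟨s, hs, hs'⟩ := Finset.exists_mem_eq_sup (insert r S) ⟨r, Finset.mem_insert_self _ _⟩ lev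
    exact ⟨s, hs, (hM x hx).trans hs'.le⟩
  · intro x hx h
    exact ⟨P x, (hF x hx h).1, hP x h⟩

/-- Every finite set `S` in a connected bridged graph lies in a finite induced bridged subgraph
which is connected, preserves all distances from a prescribed vertex `r`, and stays in the smallest
ball around `r` that contains `S`. -/
theorem result :
    (∀ (V : Type u) (G : SimpleGraph V), IsBridged G → ∀ S : Finset V,
      ∃ F : Finset V, S ⊆ F ∧ IsBridged (G.induce (F : Set V))) ∧
    ∀ (V : Type u) (G : SimpleGraph V), G.Connected → IsBridged G → ∀ (r : V) (S : Finset V),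
      ∃ (F : Finset V) (hr : r ∈ (F : Set V)), S ⊆ F ∧ IsBridged (G.induce (F : Set V)) ∧
        (G.induce (F : Set V)).Connected ∧
        (∀ x : (F : Set V), (G.induce (F : Set V)).dist ⟨r, hr⟩ x = G.dist r x) ∧
        ∀ R : ℕ, (∀ s ∈ S, G.dist r s ≤ R) → ∀ x ∈ F, G.dist r x ≤ R := by
  classical
  constructor
  · intro V G hG S
    obtain ⟨F, hSF, hF⟩ := exists_finite (noIso_of_cycles hG) S
    exact ⟨F, hSF, fun u c _ hc => cycles_of_noIso hF u c hc⟩
  · intro V G hc hG r S
    obtain ⟨F, hr, hSF, hF, hball, hpar⟩ := exists_rooted (noIso_of_cycles hG) hc r S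
    have hwalk : ∀ (n : ℕ) (x : V) (hx : x ∈ (F : Set V)), G.dist r x = n →
        ∃ p : (G.induce (F : Set V)).Walk ⟨x, hx⟩ ⟨r, hr⟩, p.length = n := by
      intro n
      induction n with
      | zero =>
        intro x hx h
        have : x = r := ((hc.dist_eq_zero_iff (u := r) (v := x)).1 h).symm
        subst this
        exact ⟨Walk.nil, rfl⟩
      | succ n ih =>
        intro x hx h
        obtain ⟨p, hp, hadj, hd⟩ := hpar x hx (by omega)
        obtain ⟨w, hw⟩ := ih p hp (by omega)
        have hadj' : (G.induce (F : Set V)).Adj ⟨x, hx⟩ ⟨p, hp⟩ := by simpa using hadj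
        exact ⟨Walk.cons hadj' w, by rw [Walk.length_cons, hw]⟩
    have hreach : ∀ x : (F : Set V), (G.induce (F : Set V)).Reachable ⟨r, hr⟩ x := by
      rintro ⟨x, hx⟩
      obtain ⟨p, -⟩ := hwalk _ x hx rfl
      exact ⟨p.reverse⟩
    refine ⟨F, hr, hSF, fun u c _ hc => cycles_of_noIso hF u c hc, ?_, ?_, ?_⟩
    · rw [connected_iff_exists_forall_reachable]
      exact ⟨⟨r, hr⟩, hreach⟩
    · rintro ⟨x, hx⟩
      refine le_antisymm ?_ ?_
      · obtain ⟨p, hp⟩ := hwalk _ x hx rfl
        rw [← hp, SimpleGraph.dist_comm]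
        exact dist_le p
      · obtain ⟨p, hp⟩ := (hreach ⟨x, hx⟩).exists_walk_length_eq_dist
        rw [← hp]
        exact (dist_le (p.map (SimpleGraph.Embedding.induce (F : Set V)).toHom)).trans
          (Walk.length_map _ _).le
    · intro R hR x hx
      obtain ⟨s, hs, hs'⟩ := hball x hx
      rcases Finset.mem_insert.1 hs with rfl | hs
      · rw [SimpleGraph.dist_self] at hs'
        omega
      · exact hs'.trans (hR s hs)

end Pool.Agent.Results.MP_1b70d9_co.RootedIsometric
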